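import Pool.Agent.K1H30.ES.Stm

set_option autoImplicit false
set_option linter.style.haveILetI false

/-!
# Piece INEQ of the project ES
-/

namespace Pool.Agent.K1H20.ES

open Pool.Agent.K1H30.ES MvPolynomial Module

/-! ### linear algebra -/

theorem lin {K M T T' : Type} [Field K] [AddCommGroup M] [Module K M] [AddCommGroup T] [Module K T]
    [AddCommGroup T'] [Module K T'] [FiniteDimensional K T'] (V V' : Submodule K M)
    [FiniteDimensional K V] [FiniteDimensional K V'] (ρ : M →ₗ[K] T) (σ : M →ₗ[K] T')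
    (U : Submodule K (M × M)) (h1 : ∀ u ∈ U, u.1 ∈ V' ∧ u.2 ∈ V)
    (h2 : ∀ g ∈ V', ∃ H, (g, H) ∈ U) (h3 : ∀ u ∈ U, u.2 = 0 → u.1 = 0)
    (h4 : ∀ u ∈ U, σ u.1 = 0 → ρ u.2 = 0) (N : ℕ) (v : Fin N → M) (hv : ∀ i, v i ∈ V)
    (h5 : LinearIndependent K fun i => ρ (v i)) :
    N + finrank K V' ≤ finrank K V + finrank K T' := by
  let ρV : V →ₗ[K] T := ρ.comp V.subtype
  have r1 := LinearMap.finrank_range_add_finrank_ker ρV
  have r2 : N ≤ finrank K (LinearMap.range ρV) := by
    let v' : Fin N → LinearMap.range ρV := fun i => ⟨ρ (v i), ⟨v i, hv i⟩, rfl⟩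
    have hli : LinearIndependent K v' := by
      apply LinearIndependent.of_comp (LinearMap.range ρV).subtype
      exact h5
    have := hli.fintype_card_le_finrank
    simpa using this
  let fU : U →ₗ[K] V' := LinearMap.codRestrict V' ((LinearMap.fst K M M).comp U.subtype)
    (fun u => (h1 u u.2).1)
  let sU : U →ₗ[K] V := LinearMap.codRestrict V ((LinearMap.snd K M M).comp U.subtype)
    (fun u => (h1 u u.2).2)
  have hsU : Function.Injective sU := by
    rw [injective_iff_map_eq_zero]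
    intro u hu
    have e2 : (u : M × M).2 = 0 := congrArg Subtype.val hu
    have e1 := h3 u u.2 e2
    exact Subtype.ext (Prod.ext e1 e2)
  haveI : FiniteDimensional K U := Module.Finite.of_injective sU hsU
  have r3 : finrank K V' ≤ finrank K U := by
    have hsurj : LinearMap.range fU = ⊤ := by
      rw [LinearMap.range_eq_top]
      rintro ⟨g, hg⟩
      obtain ⟨H, hH⟩ := h2 g hg
      exact ⟨⟨(g, H), hH⟩, rfl⟩
    have h := LinearMap.finrank_range_le fU
    rw [hsurj, finrank_top] at h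
    exact h
  let σU : U →ₗ[K] T' := σ.comp ((LinearMap.fst K M M).comp U.subtype)
  have r4 := LinearMap.finrank_range_add_finrank_ker σU
  have r5 : finrank K (LinearMap.range σU) ≤ finrank K T' := Submodule.finrank_le _
  have r6 : finrank K (LinearMap.ker σU) ≤ finrank K (LinearMap.ker ρV) := by
    let k : LinearMap.ker σU →ₗ[K] LinearMap.ker ρV :=
      LinearMap.codRestrict (LinearMap.ker ρV) (sU.comp (LinearMap.ker σU).subtype) (fun u => by
        rw [LinearMap.mem_ker]
        exact h4 _ (u : U).2 (LinearMap.mem_ker.1 u.2))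
    refine LinearMap.finrank_le_finrank_of_injective (f := k) ?_
    intro x y hxy
    exact Subtype.ext (hsU (congrArg Subtype.val hxy))
  omega

/-! ### the index set of the jets -/

/-- the pairs `(α, β)` with `α + β < k` -/
abbrev JX (k : ℕ) : Type := Σ i : Fin k, Fin (k - i)

lemma card_JX (k : ℕ) : 2 * Fintype.card (JX k) = k * (k + 1) := by
  rw [Fintype.card_sigma]
  simp only [Fintype.card_fin]
  rw [Fin.sum_univ_eq_sum_range (fun i => k - i) k]
  induction k with
  | zero => simp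
  | succ k ih =>
    rw [Finset.sum_range_succ]
    have : ∑ i ∈ Finset.range k, (k + 1 - i) = ∑ i ∈ Finset.range k, (k - i) + k := by
      rw [Finset.sum_congr rfl (g := fun i => (k - i) + 1) (fun i hi => by
        have := Finset.mem_range.1 hi
        omega), Finset.sum_add_distrib]
      simp
    rw [this]
    have e : k + 1 - k = 1 := by omega
    rw [e]
    nlinarith [ih]

section
variable {K : Type} [Field K]

/-- the functional `fn` as a linear map -/
noncomputable def fnL (t : K) (P : Fin 3 → K) (α β : ℕ) : P3 K →ₗ[K] K :=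
  (MvPolynomial.aeval P : P3 K →ₐ[K] K).toLinearMap.comp
    ((((Dv t : Derivation K (P3 K) (P3 K)) : P3 K →ₗ[K] P3 K) ^ α).comp
      (((Dz : Derivation K (P3 K) (P3 K)) : P3 K →ₗ[K] P3 K) ^ β))

lemma fnL_apply (t : K) (P : Fin 3 → K) (α β : ℕ) (G : P3 K) : fnL t P α β G = fn t P α β G := by
  unfold fnL fn
  simp only [LinearMap.comp_apply, Module.End.pow_apply]
  rfl

lemma Van_iff (t : K) (P : Fin 3 → K) (k : ℕ) (G : P3 K) :
    Van t P k G ↔ ∀ x : JX k, fnL t P x.1 x.2 G = 0 := by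
  constructor
  · intro h x
    rw [fnL_apply]
    refine h _ _ ?_
    have h1 := x.1.2
    have h2 := x.2.2
    omega
  · intro h α β hαβ
    have := h ⟨⟨α, by omega⟩, ⟨β, by show β < k - α; omega⟩⟩
    rwa [fnL_apply] at this

end

theorem t_INEQ : S_VAN1 → S_VAN2 → S_RED → S_DOM → S_CNT → S_INEQ := by
  intro hV1 hV2 hR hD hC' K _ t A B n E s w hA hB hE hw hS a e F μ haE hF hF0 hFJ hμ
  obtain ⟨G, hG, hGi⟩ := hS
  obtain ⟨fV, cV, -⟩ := hC' K A B E 0 hA hB
  obtain ⟨fV', -, cV'⟩ := hC' K A B (E - a) (-e) hA hB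
  haveI := fV
  haveI := fV'
  let σ : P3 K →ₗ[K] ((Σ q : Fin n, JX (s - μ q)) → K) :=
    LinearMap.pi fun x => fnL t (w x.1) x.2.1 x.2.2
  let ρ : P3 K →ₗ[K] (Fin n × JX s → K) := LinearMap.pi fun x => fnL t (w x.1) x.2.1 x.2.2
  let U : Submodule K (P3 K × P3 K) :=
    { carrier := {u | u.1 ∈ Cls K A B (E - a) (-e) ∧ u.2 ∈ Cls K A B E 0 ∧
        ∃ Q, F * u.1 = u.2 + hC t * Q}
      zero_mem' := ⟨Submodule.zero_mem _, Submodule.zero_mem _, 0, by simp⟩
      add_mem' := by
        rintro u v ⟨h1, h2, Q, hQ⟩ ⟨h1', h2', Q', hQ'⟩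
        refine ⟨Submodule.add_mem _ h1 h1', Submodule.add_mem _ h2 h2', Q + Q', ?_⟩
        rw [Prod.fst_add, Prod.snd_add, mul_add, hQ, hQ']
        ring
      smul_mem' := by
        rintro c u ⟨h1, h2, Q, hQ⟩
        refine ⟨Submodule.smul_mem _ c h1, Submodule.smul_mem _ c h2, c • Q, ?_⟩
        rw [Prod.smul_fst, Prod.smul_snd, mul_smul_comm, hQ, smul_add, mul_smul_comm] }
  have hUm : ∀ u : P3 K × P3 K, u ∈ U ↔ (u.1 ∈ Cls K A B (E - a) (-e) ∧ u.2 ∈ Cls K A B E 0 ∧
        ∃ Q, F * u.1 = u.2 + hC t * Q) := fun u => Iff.rfl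
  have hσ : ∀ g : P3 K, σ g = 0 → ∀ q, Van t (w q) (s - μ q) g := by
    intro g hg q
    rw [Van_iff]
    intro x
    exact congrFun hg ⟨q, x⟩
  have hρ : ∀ g : P3 K, ρ g = 0 ↔ ∀ q, Van t (w q) s g := by
    intro g
    constructor
    · intro hg q
      rw [Van_iff]
      intro x
      exact congrFun hg (q, x)
    · intro h
      funext x
      exact (Van_iff t (w x.1) s g).1 (h x.1) x.2
  have key := lin (Cls K A B E 0) (Cls K A B (E - a) (-e)) ρ σ U
    (fun u hu => ⟨hu.1, hu.2.1⟩)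
    (fun g hg => by
      obtain ⟨H, hH, Q, hQ⟩ := hR K t A B a (E - a) e (-e) F g hF hg
      rw [show a + (E - a) = E by omega, show e + -e = 0 by ring] at hH
      exact ⟨H, hg, hH, Q, hQ⟩)
    (fun u hu h0 => by
      obtain ⟨h1, h2, Q, hQ⟩ := hu
      rw [h0, zero_add] at hQ
      exact hD K t A B a (E - a) e (-e) F u.1 Q hF h1 hF0 hQ)
    (fun u hu h0 => by
      obtain ⟨h1, h2, Q, hQ⟩ := hu
      rw [hρ]
      intro q
      have v1 : Van t (w q) (μ q + (s - μ q)) (F * u.1) :=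
        hV2 K t (w q) (μ q) (s - μ q) F u.1 (hV1 K t (w q) (hw q) (μ q) F (hFJ q)) (hσ _ h0 q)
      rw [show μ q + (s - μ q) = s by have := hμ q; omega] at v1
      have v2 : Van t (w q) s (hC t * Q) := by
        refine hV1 K t (w q) (hw q) s _ ?_
        exact Ideal.mem_sup_right (Ideal.mul_mem_right Q _ (Ideal.subset_span rfl))
      rw [Van_iff] at v1 v2 ⊢
      intro x
      have hH : u.2 = F * u.1 - hC t * Q := by rw [hQ]; ring
      rw [hH, map_sub, v1 x, v2 x, sub_zero])
    (n * (s + 1).choose 2) G hG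
    (by
      rw [Fintype.linearIndependent_iff]
      intro c hc
      have : c = 0 := by
        apply hGi
        rw [← hρ, map_sum]
        simp only [map_smul]
        exact hc
      intro i
      rw [this]
      rfl)
  -- the numbers
  have d1 : 2 * (n * (s + 1).choose 2) = n * (s * (s + 1)) := by
    have h2 := Nat.add_one_mul_choose_eq s 1
    simp only [Nat.choose_one_right, Nat.reduceAdd] at h2
    nlinarith [h2]
  have d2 : (2 : ℤ) * (finrank K ((Σ q : Fin n, JX (s - μ q)) → K) : ℤ)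
      = ∑ q, ((s : ℤ) - μ q) * ((s : ℤ) - μ q + 1) := by
    rw [Module.finrank_fintype_fun_eq_card, Fintype.card_sigma]
    push_cast
    rw [Finset.mul_sum]
    refine Finset.sum_congr rfl fun q _ => ?_
    have h := card_JX (s - μ q)
    have h' : (2 : ℤ) * (Fintype.card (JX (s - μ q)) : ℤ)
        = ((s - μ q : ℕ) : ℤ) * (((s - μ q : ℕ) : ℤ) + 1) := by exact_mod_cast h
    have hc : ((s - μ q : ℕ) : ℤ) = (s : ℤ) - μ q := by
      have := hμ q
      push_cast [this]
      ring
    rw [hc] at h'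
    exact h'
  have d3 := cV hE
  have hEa : ((E - a : ℕ) : ℤ) = (E : ℤ) - a := by push_cast [haE]; ring
  rw [hEa] at cV'
  have d1' : (2 : ℤ) * ((n * (s + 1).choose 2 : ℕ) : ℤ) = (n : ℤ) * (s * (s + 1)) := by
    exact_mod_cast d1
  have d3' : (2 : ℤ) * (finrank K (Cls K A B E 0) : ℤ) = ((E : ℤ) + 1) * E * (A + B) := by
    exact_mod_cast d3
  have key' : ((n * (s + 1).choose 2 : ℕ) : ℤ) + (finrank K (Cls K A B (E - a) (-e)) : ℤ)
      ≤ (finrank K (Cls K A B E 0) : ℤ) + (finrank K ((Σ q : Fin n, JX (s - μ q)) → K) : ℤ) := by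
    exact_mod_cast key
  rw [← d1', ← d2, ← d3']
  have e1 : ((E : ℤ) - a + 1) * (((E : ℤ) - a) * (A + B) - 2 * e)
      = ((E : ℤ) - a + 1) * (((E : ℤ) - a) * (A + B) + 2 * -e) := by ring
  rw [e1]
  linarith

end Pool.Agent.K1H20.ES
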